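import Pool.Agent.Lib_MP_4c27ed_nt.Second

/-!
# Flat cyclotomic polynomials `Φ_{pqrs}` with `s ≡ ± 1` modulo `qr`

Let `p < q < r < s` be odd primes with `s ≡ ± 1` modulo `qr`, and suppose that
`r > (p-1)(q-1)` or that `s ≡ ± 1` modulo `pqr`.  If `Φ_{pqrs}` is flat then `q ≡ -1` modulo `p`,
`r ≡ ± 1` modulo `pq` and `s ≡ ± 1` modulo `pqr`.
-/

set_option autoImplicit false

namespace Pool.Agent.Results.MP_4c27ed_nt.ThirdCongruence

open Pool.Agent.MP4c27ed

theorem result :
    ∀ p q r s : ℕ, p.Prime → q.Prime → r.Prime → s.Prime → Odd p →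
      p < q → q < r → r < s →
      ((s : ℤ) ≡ 1 [ZMOD ((q : ℤ) * r)] ∨ (s : ℤ) ≡ -1 [ZMOD ((q : ℤ) * r)]) →
      ((p - 1) * (q - 1) < r ∨ (s : ℤ) ≡ 1 [ZMOD ((p : ℤ) * q * r)] ∨
        (s : ℤ) ≡ -1 [ZMOD ((p : ℤ) * q * r)]) →
      (∀ k : ℕ, |(Polynomial.cyclotomic (p * q * r * s) ℤ).coeff k| ≤ 1) →
      ((q : ℤ) ≡ -1 [ZMOD (p : ℤ)] ∧
        ((r : ℤ) ≡ 1 [ZMOD ((p : ℤ) * q)] ∨ (r : ℤ) ≡ -1 [ZMOD ((p : ℤ) * q)]) ∧
        ((s : ℤ) ≡ 1 [ZMOD ((p : ℤ) * q * r)] ∨ (s : ℤ) ≡ -1 [ZMOD ((p : ℤ) * q * r)])) := by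
  intro p q r s hp hq hr hs hpo hpq hqr hrs hsqr hor hflat
  have hp3 : 3 ≤ p := by
    have h2 := hp.two_le
    rcases Nat.lt_or_ge p 3 with h | h
    · have : p = 2 := by omega
      subst this
      exact absurd hpo (by decide)
    · exact h
  have H : Hyp p q r := ⟨hp, hq, hr, hp3, hpq, hqr⟩
  have hqo : Odd q := hq.odd_of_ne_two (by omega)
  have hro : Odd r := hr.odd_of_ne_two (by omega)
  have hso : Odd s := hs.odd_of_ne_two (by omega)
  have hp0 := H.p0
  have hq0 := H.q0
  have hr0 := H.r0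
  have hs0 := hs.pos
  -- the third congruence
  have hthird : (s : ℤ) ≡ 1 [ZMOD ((p : ℤ) * q * r)] ∨ (s : ℤ) ≡ -1 [ZMOD ((p : ℤ) * q * r)] := by
    rcases hor with hbig | h
    · have hrphi : (p : ℤ) * q - p - q + 1 < r := by
        have h1 : (((p - 1) * (q - 1) : ℕ) : ℤ) < r := by exact_mod_cast hbig
        rw [Nat.cast_mul, Nat.cast_sub (by omega), Nat.cast_sub (by omega)] at h1
        push_cast at h1
        linarith
      have hqrpos : (0 : ℤ) < (q : ℤ) * r := by positivity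
      -- a general argument for both signs
      have gen : ∀ ε : ℤ, (ε = 1 ∨ ε = -1) → (s : ℤ) ≡ ε [ZMOD ((q : ℤ) * r)] →
          (s : ℤ) ≡ ε [ZMOD ((p : ℤ) * q * r)] := by
        intro ε hε hc
        obtain ⟨m, hm⟩ := hc.symm.dvd
        have hm0 : 0 ≤ m := by
          by_contra hcon
          push Not at hcon
          have h1 : (q : ℤ) * r * m ≤ (q : ℤ) * r * (-1) :=
            mul_le_mul_of_nonneg_left (by omega) hqrpos.le
          have h2 : (1 : ℤ) ≤ s := by exact_mod_cast hs0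
          have h3 : ε ≤ 1 := by rcases hε with h | h <;> rw [h]; norm_num
          linarith
        obtain ⟨e, rfl⟩ : ∃ e : ℕ, m = e := ⟨m.toNat, (Int.toNat_of_nonneg hm0).symm⟩
        have hse : (s : ℤ) = ε + e * (q * r) := by linarith
        have hpe := part2 H hrphi hs hrs hqo hro hflat hε hse
        obtain ⟨c, rfl⟩ := hpe
        apply Int.ModEq.symm
        rw [Int.modEq_iff_dvd]
        refine ⟨c, ?_⟩
        rw [hm]; push_cast; ring
      rcases hsqr with h | h
      · left; exact gen 1 (Or.inl rfl) h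
      · right; exact gen (-1) (Or.inr rfl) h
    · exact h
  -- `s` is at least `pqr`
  have hcast : ((p * q * r : ℕ) : ℤ) = (p : ℤ) * q * r := by push_cast; ring
  have hnpos := H.npos
  have hn : p * q * r ≤ s := by
    have hs1 : (1 : ℤ) < s := by exact_mod_cast hs.one_lt
    have hnz : (0 : ℤ) < (p : ℤ) * q * r := by rw [← hcast]; exact_mod_cast hnpos
    have hnodd : Odd ((p : ℤ) * q * r) := by
      rw [← hcast]
      exact_mod_cast (Int.odd_coe_nat (p * q * r)).2 ((hpo.mul hqo).mul hro)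
    have hsodd : Odd (s : ℤ) := (Int.odd_coe_nat s).2 hso
    have hz : ((p * q * r : ℕ) : ℤ) ≤ s := by
      rw [hcast]
      rcases hthird with h | h
      · obtain ⟨m, hm⟩ := h.symm.dvd
        have hm1 : 0 < m := by
          by_contra hcon
          push Not at hcon
          have := mul_nonpos_of_nonneg_of_nonpos hnz.le hcon
          linarith
        have : (p : ℤ) * q * r * 1 ≤ (p : ℤ) * q * r * m :=
          mul_le_mul_of_nonneg_left hm1 hnz.le
        linarith
      · obtain ⟨m, hm⟩ := h.symm.dvd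
        have hm1 : 0 < m := by
          by_contra hcon
          push Not at hcon
          have := mul_nonpos_of_nonneg_of_nonpos hnz.le hcon
          linarith
        have hm2 : m ≠ 1 := by
          rintro rfl
          rw [mul_one] at hm
          have h1 : Even ((s : ℤ) - -1) := hsodd.sub_odd (by decide)
          rw [hm] at h1
          exact (Int.not_even_iff_odd.2 hnodd) h1
        have h3 : (2 : ℤ) ≤ m := by omega
        have : (p : ℤ) * q * r * 2 ≤ (p : ℤ) * q * r * m :=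
          mul_le_mul_of_nonneg_left h3 hnz.le
        linarith
    exact_mod_cast hz
  have hsn : ¬ s ∣ p * q * r := by
    intro h
    rcases (Nat.Prime.dvd_mul hs).1 h with h1 | h1
    · rcases (Nat.Prime.dvd_mul hs).1 h1 with h2 | h2
      · have := Nat.le_of_dvd hp0 h2; omega
      · have := Nat.le_of_dvd hq0 h2; omega
    · have := Nat.le_of_dvd hr0 h1; omega
  have hF : FlatD p q r := fun t Y ht hY =>
    flat_D H hs hsn hn hflat (by rw [hcast]; exact hthird) t Y ht hY
  obtain ⟨h1, h2⟩ := part1 H hF hpo hqo hro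
  refine ⟨?_, h2, hthird⟩
  obtain ⟨c, hc⟩ := h1
  apply Int.ModEq.symm
  rw [Int.modEq_iff_dvd]
  refine ⟨c, ?_⟩
  have : ((q + 1 : ℕ) : ℤ) = ((p * c : ℕ) : ℤ) := by rw [hc]
  push_cast at this
  linarith

end Pool.Agent.Results.MP_4c27ed_nt.ThirdCongruence
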